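import Pool.Agent.P.MP_e1cc3f_lc.Hard
import Pool.Agent.P.MP_e1cc3f_lc.Member
import Pool.Agent.Lib.NP.Sim

/-- Lombardi drawability without a rotation system is `∃ℝ`-complete. -/
theorem Pool.Agent.Results.MP_e1cc3f_lc.ExistsRComplete.result :
    N793a5b8e.IsCompleteFor Pool.Agent.Lib.ETR.ExistsR Pool.Agent.P.MP_e1cc3f_lc.Lombardi :=
  ⟨Pool.Agent.P.MP_e1cc3f_lc.lombardi_mem, fun _ h =>
    Pool.Agent.Lib.NP.manyOne_trans h Pool.Agent.P.MP_e1cc3f_lc.lombardi_hard⟩
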